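import Pool.Agent.Helper62_GB.Stmt

/-! GB, module DEF: the inner parallel body of a large body almost touches in the directions of
strict sublinearity -/

set_option autoImplicit false

namespace Pool.Agent.GB.H35

open MeasureTheory Complex Filter Topology ProbabilityTheory Pool.Agent.H16Iso Pool.Agent.H62T
open Pool.Agent.H16F
open Pool.Agent.GB

lemma ip_add_r (w x y : ℂ) : ip w (x + y) = ip w x + ip w y := by
  unfold ip; simp only [Complex.add_re, Complex.add_im]; ring

lemma ip_mul_r (w x : ℂ) (r : ℝ) : ip w ((r : ℂ) * x) = r * ip w x := by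
  unfold ip
  simp only [Complex.mul_re, Complex.mul_im, Complex.ofReal_re, Complex.ofReal_im]
  ring

lemma ip_add_l (w x y : ℂ) : ip (x + y) w = ip x w + ip y w := by
  unfold ip; simp only [Complex.add_re, Complex.add_im]; ring

lemma ip_mul_l (w x : ℂ) (r : ℝ) : ip ((r : ℂ) * x) w = r * ip x w := by
  unfold ip
  simp only [Complex.mul_re, Complex.mul_im, Complex.ofReal_re, Complex.ofReal_im]
  ring

lemma ip_neg_r (w x : ℂ) : ip w (-x) = -ip w x := by
  unfold ip; simp only [Complex.neg_re, Complex.neg_im]; ring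

lemma unit_sq {z : ℂ} (h : ‖z‖ = 1) : z.re ^ 2 + z.im ^ 2 = 1 := by
  have := Complex.normSq_apply z
  rw [Complex.normSq_eq_norm_sq, h] at this
  linarith only [this]

lemma decomp {v : ℂ} (hv : ‖v‖ = 1) (u : ℂ) :
    u = (ip u v : ℂ) * v + (ip u (I * v) : ℂ) * (I * v) := by
  have hu := unit_sq hv
  apply Complex.ext
  · simp only [ip, Complex.add_re, Complex.mul_re, Complex.ofReal_re, Complex.ofReal_im,
      Complex.I_re, Complex.I_im, Complex.mul_im]
    linear_combination (-u.re) * hu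
  · simp only [ip, Complex.add_im, Complex.mul_re, Complex.ofReal_re, Complex.ofReal_im,
      Complex.I_re, Complex.I_im, Complex.mul_im]
    linear_combination (-u.im) * hu

lemma sub_comb {k : ℂ → ℝ} (hk : Sublin k) {a b : ℝ} (ha : 0 ≤ a) (hb : 0 ≤ b) (v w : ℂ) :
    k ((a : ℂ) * v + (b : ℂ) * w) ≤ a * k v + b * k w := by
  have := hk.1 ((a : ℂ) * v) ((b : ℂ) * w)
  rw [hk.2 a v ha, hk.2 b w hb] at this
  exact this

lemma sub_zero' {k : ℂ → ℝ} (hk : Sublin k) : k 0 = 0 := by
  have := hk.2 0 0 le_rfl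
  simpa using this

lemma sub_neg {k : ℂ → ℝ} (hk : Sublin k) (v : ℂ) : 0 ≤ k v + k (-v) := by
  have := hk.1 v (-v)
  rw [add_neg_cancel, sub_zero' hk] at this
  exact this

/-- the normal cone at the support point of a direction of strict sublinearity lies on one side -/
lemma cone_side {h : ℂ → ℝ} (hh : SF h) {v p : ℂ} (hv : v ∈ SS h) (hp : ip v p = h v) :
    ∃ w, (w = I * v ∨ w = -(I * v)) ∧ ∀ u, h u = ip u p → ip u w ≤ 0 := by
  by_contra hcon
  push Not at hcon
  obtain ⟨u1, h1, h1'⟩ := hcon (I * v) (Or.inl rfl)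
  obtain ⟨u2, h2, h2'⟩ := hcon (-(I * v)) (Or.inr rfl)
  rw [ip_neg_r] at h2'
  obtain ⟨hv1, hv2⟩ := hv
  obtain ⟨a1, ha1⟩ : ∃ a, a = ip u1 v := ⟨_, rfl⟩
  obtain ⟨b1, hb1⟩ : ∃ b, b = ip u1 (I * v) := ⟨_, rfl⟩
  obtain ⟨a2, ha2⟩ : ∃ a, a = ip u2 v := ⟨_, rfl⟩
  obtain ⟨b2, hb2⟩ : ∃ b, b = -ip u2 (I * v) := ⟨_, rfl⟩
  have e1 : u1 = (a1 : ℂ) * v + (b1 : ℂ) * (I * v) := by rw [ha1, hb1]; exact decomp hv1 u1
  have e2 : u2 = (a2 : ℂ) * v - (b2 : ℂ) * (I * v) := by
    rw [ha2, hb2]
    conv_lhs => rw [decomp hv1 u2]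
    push_cast; ring
  rw [← hb1] at h1'
  rw [← hb2] at h2'
  obtain ⟨c, hc⟩ : ∃ c, c = a1 * b2 + a2 * b1 := ⟨_, rfl⟩
  have e3 : (b2 : ℂ) * u1 + (b1 : ℂ) * u2 = (c : ℂ) * v := by
    rw [e1, e2, hc]; push_cast; ring
  have hv0 : v ≠ 0 := fun h0 => by rw [h0, norm_zero] at hv1; exact zero_ne_one hv1
  have hu1 : u1 ≠ 0 := fun h0 => by
    rw [h0] at hb1
    have : b1 = 0 := by rw [hb1]; unfold ip; simp
    linarith
  have hu2 : u2 ≠ 0 := fun h0 => by
    rw [h0] at hb2
    have : b2 = 0 := by rw [hb2]; unfold ip; simp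
    linarith
  have p1 := hh.pos u1 hu1
  have p2 := hh.pos u2 hu2
  have p0 := hh.pos v hv0
  have e4 : b2 * h u1 + b1 * h u2 = c * h v := by
    rw [h1, h2, ← hp, ← ip_mul_l, ← ip_mul_l, ← ip_mul_l, ← ip_add_l, e3]
  rcases lt_or_ge 0 c with hc0 | hc0
  · have e5 : v - ((b2 / c : ℝ) : ℂ) * u1 = ((b1 / c : ℝ) : ℂ) * u2 := by
      have hcc : (c : ℂ) ≠ 0 := by exact_mod_cast hc0.ne'
      push_cast
      field_simp
      rw [sub_eq_iff_eq_add, mul_comm v, ← e3]; ring
    have h6 := hv2 (((b2 / c : ℝ) : ℂ) * u1) (by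
      have : dt v (((b2 / c : ℝ) : ℂ) * u1) = b2 / c * b1 := by
        rw [hb1]
        unfold dt ip
        simp only [Complex.mul_re, Complex.mul_im, Complex.ofReal_re, Complex.ofReal_im,
          Complex.I_re, Complex.I_im]
        ring
      rw [this]
      positivity)
    rw [e5, hh.sub.2 _ _ (by positivity), hh.sub.2 _ _ (by positivity)] at h6
    have e6 : b2 / c * h u1 + b1 / c * h u2 = h v := by
      have : b2 / c * h u1 + b1 / c * h u2 = (b2 * h u1 + b1 * h u2) / c := by ring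
      rw [this, e4]; field_simp
    linarith
  · have k1 : 0 < b2 * h u1 := mul_pos h2' p1
    have k2 : 0 < b1 * h u2 := mul_pos h1' p2
    have k3 : c * h v ≤ 0 := mul_nonpos_of_nonpos_of_nonneg hc0 p0.le
    linarith

/-- it suffices to check unit vectors -/
lemma er_of_unit {h k : ℂ → ℝ} (hh : Sublin h) (hk : Sublin k) {x : ℂ}
    (H : ∀ u, ‖u‖ = 1 → ip u x ≤ h u - k u) : Er h k x := by
  intro u
  by_cases hu : u = 0
  · rw [hu, sub_zero' hh, sub_zero' hk]
    unfold ip; simp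
  · have hn : 0 < ‖u‖ := norm_pos_iff.2 hu
    have e : u = ((‖u‖ : ℝ) : ℂ) * ((‖u‖⁻¹ : ℝ) * u) := by
      rw [← mul_assoc, ← Complex.ofReal_mul, mul_inv_cancel₀ hn.ne', Complex.ofReal_one, one_mul]
    have h1 : ‖((‖u‖⁻¹ : ℝ) : ℂ) * u‖ = 1 := by
      rw [norm_mul, Complex.norm_real, Real.norm_eq_abs, abs_of_pos (inv_pos.2 hn),
        inv_mul_cancel₀ hn.ne']
    have h2 := H _ h1
    rw [e, hh.2 _ _ hn.le, hk.2 _ _ hn.le, ip_mul_l, ← mul_sub]
    exact mul_le_mul_of_nonneg_left h2 hn.le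

lemma sublin_mul {h : ℂ → ℝ} (hh : Sublin h) {R : ℝ} (hR : 0 ≤ R) : Sublin fun u => R * h u := by
  refine ⟨fun a b => ?_, fun c a hc => ?_⟩
  · have := mul_le_mul_of_nonneg_left (hh.1 a b) hR
    linarith
  · show R * h (c * a) = c * (R * h a)
    rw [hh.2 c a hc]; ring

/-- one direction -/
lemma point_dir (hsfb : SfbStatement) {h : ℂ → ℝ} (hh : SF h) {k : ℂ → ℝ} (hk : Sublin k) {e : ℝ}
    (he : 0 < e) {v : ℂ} (hv : v ∈ SS h) : ∃ (R : ℝ) (x : ℂ), 0 < R ∧
      Er (fun u => R * h u) k x ∧ R * h v - k v - e ≤ ip v x := by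
  obtain ⟨p, hp, hp'⟩ := hsfb.2.1 h hh.sub v
  obtain ⟨w, hw, hw'⟩ := cone_side hh hv hp
  have hv1 := hv.1
  have hv0 : v ≠ 0 := fun h0 => by rw [h0, norm_zero] at hv1; exact zero_ne_one hv1
  have p0 := hh.pos v hv0
  have uv := unit_sq hv1
  have ivw : ip v w = 0 := by
    rcases hw with rfl | rfl
    · unfold ip; simp only [Complex.mul_re, Complex.mul_im, Complex.I_re, Complex.I_im]; ring
    · unfold ip
      simp only [Complex.neg_re, Complex.neg_im, Complex.mul_re, Complex.mul_im, Complex.I_re,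
        Complex.I_im]
      ring
  have ivv : ip v v = 1 := by unfold ip; linarith only [uv]
  have hdec : ∀ u : ℂ, u = (ip u v : ℂ) * v + (ip u w : ℂ) * w := by
    intro u
    rcases hw with rfl | rfl
    · exact decomp hv1 u
    · conv_lhs => rw [decomp hv1 u]
      rw [ip_neg_r]; push_cast; ring
  -- constants
  obtain ⟨K, hK⟩ : ∃ K, K = |ip w p| / h v := ⟨_, rfl⟩
  have hK0 : 0 ≤ K := by rw [hK]; positivity
  obtain ⟨L, hL⟩ : ∃ L, L = K * (k v + k (-v) + e) + k (-w) + 1 := ⟨_, rfl⟩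
  have hkk := sub_neg hk v
  have hL1 : 0 ≤ K * (k v + k (-v) + e) := mul_nonneg hK0 (by linarith)
  obtain ⟨g, hg⟩ : ∃ g : ℂ → ℝ, g = fun u => k u - (k v + e) * ip u v + L * ip u w := ⟨_, rfl⟩
  have hneg : ∀ u, ‖u‖ = 1 → h u = ip u p → g u < 0 := by
    intro u hu1 hu
    have hu0 : u ≠ 0 := fun h0 => by rw [h0, norm_zero] at hu1; exact zero_ne_one hu1
    have s0 := hw' u hu
    obtain ⟨a, ha⟩ : ∃ a, a = ip u v := ⟨_, rfl⟩
    obtain ⟨b, hb⟩ : ∃ b, b = -ip u w := ⟨_, rfl⟩
    have hb0 : 0 ≤ b := by rw [hb]; linarith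
    have eu : u = (a : ℂ) * v + (b : ℂ) * (-w) := by
      conv_lhs => rw [hdec u]
      rw [ha, hb]; push_cast; ring
    have hgu : g u = k u - (k v + e) * a - L * b := by rw [hg, ha, hb]; ring
    rw [hgu]
    rcases le_or_gt 0 a with ha0 | ha0
    · have h1 : k u ≤ a * k v + b * k (-w) := by
        conv_lhs => rw [eu]
        exact sub_comb hk ha0 hb0 _ _
      have h2 : 0 < a ∨ 0 < b := by
        by_contra hcon
        push Not at hcon
        have e1 : a = 0 := le_antisymm hcon.1 ha0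
        have e2 : b = 0 := le_antisymm hcon.2 hb0
        apply hu0
        rw [eu, e1, e2]; simp
      rcases h2 with h2 | h2
      · have : 0 < e * a := mul_pos he h2
        have h3 : 0 ≤ b * (K * (k v + k (-v) + e) + 1) := by positivity
        rw [hL]; linarith only [h1, this, h3]
      · have : 0 ≤ e * a := mul_nonneg he.le ha0
        have h3 : 0 < b * (K * (k v + k (-v) + e) + 1) := by positivity
        rw [hL]; linarith only [h1, this, h3]
    · -- `u = - |a| v + b (-w)`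
      have h1 : k u ≤ (-a) * k (-v) + b * k (-w) := by
        have e1 : u = ((-a : ℝ) : ℂ) * (-v) + (b : ℂ) * (-w) := by
          conv_lhs => rw [eu]
          push_cast; ring
        conv_lhs => rw [e1]
        exact sub_comb hk (by linarith) hb0 _ _
      have h2 : 0 < h u := hh.pos u hu0
      have h3 : h u = a * h v - b * ip w p := by
        rw [hu, ← hp]
        conv_lhs => rw [eu]
        rw [ip_add_l, ip_mul_l, ip_mul_l]
        have : ip (-w) p = -ip w p := by
          unfold ip; simp only [Complex.neg_re, Complex.neg_im]; ring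
        rw [this]; ring
      have h4 : (-a) * h v < b * |ip w p| := by
        have : -(b * ip w p) ≤ b * |ip w p| := by
          rw [← mul_neg]
          exact mul_le_mul_of_nonneg_left (neg_le_abs _) hb0
        linarith
      have h5 : -a < b * K := by
        rw [hK, ← mul_div_assoc, lt_div_iff₀ p0]
        exact h4
      have hb1 : 0 < b := by
        by_contra hcon
        push Not at hcon
        have : b = 0 := le_antisymm hcon hb0
        rw [this, zero_mul] at h5
        linarith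
      have h6 : (-a) * (k v + k (-v) + e) ≤ b * K * (k v + k (-v) + e) :=
        mul_le_mul_of_nonneg_right h5.le (by linarith)
      rw [hL]
      linarith only [h1, hb1, h6]
  -- compactness
  obtain ⟨ch, -⟩ := hsfb.1 h hh.sub
  obtain ⟨ck, -⟩ := hsfb.1 k hk
  have cip : ∀ y : ℂ, Continuous fun u : ℂ => ip u y := fun y => by
    unfold ip
    exact (Complex.continuous_re.mul continuous_const).add
      (Complex.continuous_im.mul continuous_const)
  have cg : Continuous g := by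
    rw [hg]
    exact (ck.sub (continuous_const.mul (cip v))).add (continuous_const.mul (cip w))
  have cf : Continuous fun u => h u - ip u p := ch.sub (cip p)
  have hR : ∃ R : ℝ, 0 < R ∧ ∀ u, ‖u‖ = 1 → g u ≤ R * (h u - ip u p) := by
    have hcomp : IsCompact {u : ℂ | ‖u‖ = 1 ∧ 0 ≤ g u} := by
      have h1 : IsCompact {u : ℂ | ‖u‖ = 1} := by
        have := isCompact_sphere (0 : ℂ) 1
        convert this using 1
        ext u; simp
      exact h1.inter_right (isClosed_le continuous_const cg)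
    by_cases hne : {u : ℂ | ‖u‖ = 1 ∧ 0 ≤ g u}.Nonempty
    · obtain ⟨u0, hu0, hmin⟩ := hcomp.exists_isMinOn hne cf.continuousOn
      obtain ⟨u1, hu1, hmax⟩ := hcomp.exists_isMaxOn hne cg.continuousOn
      have m0 : 0 < h u0 - ip u0 p := by
        have h1 := hp' u0
        rcases h1.eq_or_lt with h2 | h2
        · exact absurd hu0.2 (not_le.2 (hneg u0 hu0.1 h2.symm))
        · linarith
      refine ⟨(g u1 + 1) / (h u0 - ip u0 p), div_pos (by linarith [hu1.2]) m0, fun u hu => ?_⟩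
      by_cases hgu : 0 ≤ g u
      · have k1 : h u0 - ip u0 p ≤ h u - ip u p := hmin ⟨hu, hgu⟩
        have k2 : g u ≤ g u1 := hmax ⟨hu, hgu⟩
        have k3 : 0 ≤ (g u1 + 1) / (h u0 - ip u0 p) := div_nonneg (by linarith [hu1.2]) m0.le
        calc g u ≤ g u1 + 1 := by linarith
          _ = (g u1 + 1) / (h u0 - ip u0 p) * (h u0 - ip u0 p) := by field_simp
          _ ≤ _ := mul_le_mul_of_nonneg_left k1 k3
      · have k1 : 0 ≤ h u - ip u p := by linarith [hp' u]
        have k3 : 0 ≤ (g u1 + 1) / (h u0 - ip u0 p) := div_nonneg (by linarith [hu1.2]) m0.le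
        have := mul_nonneg k3 k1
        push Not at hgu
        linarith
    · refine ⟨1, one_pos, fun u hu => ?_⟩
      have hgu : g u < 0 := by
        by_contra hcon
        push Not at hcon
        exact hne ⟨u, hu, hcon⟩
      have := hp' u
      linarith
  obtain ⟨R, hR0, hR1⟩ := hR
  refine ⟨R, (R : ℂ) * p - ((k v + e : ℝ) : ℂ) * v + (L : ℂ) * w, hR0, ?_, ?_⟩
  · refine er_of_unit (sublin_mul hh.sub hR0.le) hk fun u hu => ?_
    have h1 := hR1 u hu
    have h2 : ip u ((R : ℂ) * p - ((k v + e : ℝ) : ℂ) * v + (L : ℂ) * w)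
        = R * ip u p - (k v + e) * ip u v + L * ip u w := by
      rw [sub_eq_add_neg, ip_add_r, ip_add_r, ip_neg_r, ip_mul_r, ip_mul_r, ip_mul_r]; ring
    rw [h2]
    rw [hg] at h1
    simp only at h1 ⊢
    linarith
  · have h2 : ip v ((R : ℂ) * p - ((k v + e : ℝ) : ℂ) * v + (L : ℂ) * w)
        = R * ip v p - (k v + e) * ip v v + L * ip v w := by
      rw [sub_eq_add_neg, ip_add_r, ip_add_r, ip_neg_r, ip_mul_r, ip_mul_r, ip_mul_r]; ring
    rw [h2, hp, ivv, ivw]
    linarith

/-- DEF -/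
theorem defS (hsfb : SfbStatement) (hssb : SsbStatement) : DefStatement := by
  intro h hh k hk ε hε
  obtain ⟨ch, -⟩ := hsfb.1 h hh.sub
  obtain ⟨ck, -⟩ := hsfb.1 k hk
  have cip : ∀ y : ℂ, Continuous fun u : ℂ => ip u y := fun y => by
    unfold ip
    exact (Complex.continuous_re.mul continuous_const).add
      (Complex.continuous_im.mul continuous_const)
  have hcomp := (hssb h hh).1
  have hpt : ∀ v : SS h, ∃ (R : ℝ) (x : ℂ), 0 < R ∧
      Er (fun u => R * h u) k x ∧ R * h v - k v - ε / 2 ≤ ip v x := fun v =>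
    point_dir hsfb hh hk (half_pos hε) v.2
  choose R x hR0 hEr hval using hpt
  obtain ⟨t, ht⟩ := hcomp.elim_finite_subcover
    (fun v : SS h => {u : ℂ | R v * h u - k u - ε < ip u (x v)})
    (fun v => isOpen_lt (((continuous_const.mul ch).sub ck).sub continuous_const) (cip _))
    (fun u hu => Set.mem_iUnion.2 ⟨⟨u, hu⟩, by
      have := hval ⟨u, hu⟩
      show R ⟨u, hu⟩ * h u - k u - ε < ip u (x ⟨u, hu⟩)
      simp only at this
      linarith⟩)
  refine ⟨1 + ∑ v ∈ t, R v, ?_, fun R' hR' v hv => ?_⟩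
  · have := Finset.sum_nonneg fun v (_ : v ∈ t) => (hR0 v).le
    linarith
  · obtain ⟨v0, hv0, hv0'⟩ := Set.mem_iUnion₂.1 (ht hv)
    have hle : R v0 ≤ R' := by
      have := Finset.single_le_sum (fun v (_ : v ∈ t) => (hR0 v).le) hv0
      linarith
    obtain ⟨p, hp, hp'⟩ := hsfb.2.1 h hh.sub v
    refine ⟨x v0 + ((R' - R v0 : ℝ) : ℂ) * p, fun u => ?_, ?_⟩
    · rw [ip_add_r, ip_mul_r]
      have h1 := hEr v0 u
      have h2 := mul_le_mul_of_nonneg_left (hp' u) (sub_nonneg.2 hle)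
      simp only at h1 ⊢
      linarith
    · rw [ip_add_r, ip_mul_r, hp]
      have h3 : R v0 * h v - k v - ε < ip v (x v0) := hv0'
      linarith

end Pool.Agent.GB.H35
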