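import Pool.Agent.Helper62_GB.Stmt
import Pool.Agent.Helper61_Fine.Alg
import Pool.Agent.Helper69_Fine.Vert
import Pool.Agent.Helper35_GB.Def

/-! GB, module UPB: upper bound for the area minus the quadratic form -/

set_option autoImplicit false

namespace Pool.Agent.GB.H35

open MeasureTheory Complex Filter Topology ProbabilityTheory Pool.Agent.H16Iso Pool.Agent.H62T
open Pool.Agent.H16F
open Pool.Agent.GB

section

variable {n : ℕ} [NeZero n] {u : Fin n → ℂ} {β : Fin n → ℝ}

lemma tan_nonneg (N : Nm u β) (i : Fin n) : 0 ≤ Real.tan (β i / 2) :=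
  Real.tan_nonneg_of_nonneg_of_le_pi_div_two (by linarith [N.pos i]) (by linarith [N.lt i])

lemma len_const_pos (N : Nm u β) {c : ℝ} (hc : 0 < c) (i : Fin n) : 0 < len β (fun _ => c) i := by
  have h : ∀ j, 0 < (c - c * Real.cos (β j)) / Real.sin (β j) := fun j => by
    have h1 : Real.cos (β j) < 1 := by
      have := Real.cos_lt_cos_of_nonneg_of_le_pi le_rfl (N.lt j).le (N.pos j)
      rwa [Real.cos_zero] at this
    have h2 := Real.sin_pos_of_pos_of_lt_pi (N.pos j) (N.lt j)
    apply div_pos _ h2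
    nlinarith only [hc, h1]
  exact add_pos (h (i - 1)) (h i)

lemma cp_const (N : Nm u β) {c : ℝ} (hc : 0 < c) : CP u (fun _ => c) β :=
  { N with side := fun i => len_const_pos N hc i }

lemma cl_bdd (N : Nm u β) (b : Fin n → ℝ) : Bornology.IsBounded {x : ℂ | ∀ i, ip (u i) x ≤ b i} := by
  obtain ⟨c, hc0, hc⟩ : ∃ c : ℝ, 0 < c ∧ ∀ i, b i < c := by
    refine ⟨1 + ∑ i, |b i|, ?_, fun i => ?_⟩
    · have := Finset.sum_nonneg fun i (_ : i ∈ Finset.univ) => abs_nonneg (b i)
      linarith
    · have := Finset.single_le_sum (fun i (_ : i ∈ Finset.univ) => abs_nonneg (b i))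
        (Finset.mem_univ i)
      have := le_abs_self (b i)
      linarith
  exact ((H69.vert n u _ β (cp_const N hc0)).2.1).subset fun x hx i => lt_of_le_of_lt (hx i) (hc i)

lemma Ar_mono (N : Nm u β) {b c : Fin n → ℝ} (h : ∀ i, b i ≤ c i) : Ar u b ≤ Ar u c := by
  unfold Ar
  exact ENNReal.toReal_mono (cl_bdd N c).measure_lt_top.ne
    (measure_mono fun x hx i => (hx i).trans (h i))

lemma len_sub (β : Fin n → ℝ) (a b : Fin n → ℝ) (i : Fin n) :
    len β (fun j => a j - b j) i = len β a i - len β b i := by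
  unfold len; ring

omit [NeZero n] in
lemma cl_closed (u : Fin n → ℂ) (b : Fin n → ℝ) : IsClosed {x : ℂ | ∀ i, ip (u i) x ≤ b i} := by
  have : {x : ℂ | ∀ i, ip (u i) x ≤ b i} = ⋂ i, {x : ℂ | ip (u i) x ≤ b i} := by
    ext x; simp
  rw [this]
  refine isClosed_iInter fun i => isClosed_le ?_ continuous_const
  unfold ip
  exact (continuous_const.mul Complex.continuous_re).add (continuous_const.mul Complex.continuous_im)

/-- the support numbers of a nonempty polygon -/
lemma exists_support (N : Nm u β) {b : Fin n → ℝ} (hne : ∃ x, ∀ i, ip (u i) x ≤ b i) :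
    ∃ s : ℂ → ℝ, Sublin s ∧ (∀ i, s (u i) ≤ b i) ∧
      (∀ x, (∀ i, ip (u i) x ≤ b i) → ∀ v, ip v x ≤ s v) := by
  have hcomp : IsCompact {x : ℂ | ∀ i, ip (u i) x ≤ b i} :=
    Metric.isCompact_of_isClosed_isBounded (cl_closed u b) (cl_bdd N b)
  have hmax : ∀ v : ℂ, ∃ x, (∀ i, ip (u i) x ≤ b i) ∧ ∀ y, (∀ i, ip (u i) y ≤ b i) →
      ip v y ≤ ip v x := by
    intro v
    have hc : Continuous fun x : ℂ => ip v x := by
      unfold ip
      exact (continuous_const.mul Complex.continuous_re).add
        (continuous_const.mul Complex.continuous_im)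
    obtain ⟨x, hx, hx'⟩ := hcomp.exists_isMaxOn hne hc.continuousOn
    exact ⟨x, hx, fun y hy => hx' hy⟩
  choose p hp hp' using hmax
  refine ⟨fun v => ip v (p v), ⟨fun a b' => ?_, fun c a hc => ?_⟩, fun i => hp (u i) i,
    fun x hx v => hp' v x hx⟩
  · simp only
    rw [ip_add_l]
    exact add_le_add (hp' a _ (hp _)) (hp' b' _ (hp _))
  · simp only
    rw [ip_mul_l]
    apply le_antisymm
    · exact mul_le_mul_of_nonneg_left (hp' a _ (hp _)) hc
    · have := hp' ((c : ℂ) * a) (p a) (hp a)
      rw [ip_mul_l, ip_mul_l] at this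
      exact this

end

/-- UPB -/
theorem upb (htan : TanbStatement) (hlsub : LsubStatement) (hzb : ZbStatement) : UpbStatement := by
  intro B hB
  obtain ⟨C, hC0, hC⟩ := htan B hB
  refine ⟨C, hC0, ?_⟩
  intro n _ u β N hβ h k hh hk r ρ M hr hb
  obtain ⟨alg1, alg2, alg3, -⟩ := H61.alg n u β N
  have hw := hC n u β N hβ
  have hw0 : ∀ i, 0 ≤ Real.tan (β (i - 1) / 2) + Real.tan (β i / 2) := fun i =>
    add_nonneg (tan_nonneg N _) (tan_nonneg N _)
  have hb' := fun i => hb (u i) (N.unit i)
  have hρ : 0 < ρ := by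
    obtain ⟨h1, h2, -⟩ := hb' 0
    linarith
  have hM : 0 ≤ M := (abs_nonneg _).trans (hb' 0).2.2
  have lh := hlsub n u β N h hh
  have lk := hlsub n u β N k hk
  have sh : ∑ i, len β (fun j => h (u j)) i ≤ C * ρ := by
    rw [alg3]
    calc ∑ i, h (u i) * (Real.tan (β (i - 1) / 2) + Real.tan (β i / 2))
        ≤ ∑ i, ρ * (Real.tan (β (i - 1) / 2) + Real.tan (β i / 2)) :=
          Finset.sum_le_sum fun i _ => mul_le_mul_of_nonneg_right (hb' i).2.1 (hw0 i)
      _ = ρ * ∑ i, (Real.tan (β (i - 1) / 2) + Real.tan (β i / 2)) := by rw [Finset.mul_sum]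
      _ ≤ ρ * C := mul_le_mul_of_nonneg_left hw hρ.le
      _ = C * ρ := mul_comm _ _
  have sk : ∑ i, len β (fun j => k (u j)) i ≤ C * M := by
    rw [alg3]
    calc ∑ i, k (u i) * (Real.tan (β (i - 1) / 2) + Real.tan (β i / 2))
        ≤ ∑ i, M * (Real.tan (β (i - 1) / 2) + Real.tan (β i / 2)) :=
          Finset.sum_le_sum fun i _ => mul_le_mul_of_nonneg_right
            ((le_abs_self _).trans (hb' i).2.2) (hw0 i)
      _ = M * ∑ i, (Real.tan (β (i - 1) / 2) + Real.tan (β i / 2)) := by rw [Finset.mul_sum]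
      _ ≤ M * C := mul_le_mul_of_nonneg_left hw hM
      _ = C * M := mul_comm _ _
  obtain ⟨b, hbd⟩ : ∃ b : Fin n → ℝ, b = fun i => h (u i) - k (u i) := ⟨_, rfl⟩
  rw [← hbd]
  have lb : ∀ i, len β b i = len β (fun j => h (u j)) i - len β (fun j => k (u j)) i := fun i => by
    rw [hbd]; exact len_sub β _ _ i
  have habs : ∀ i, |b i| ≤ ρ + M := fun i => by
    obtain ⟨h1, h2, h3⟩ := hb' i
    rw [abs_le] at h3
    rw [hbd, abs_le]
    constructor <;> simp only <;> linarith
  refine ⟨sh, ?_, ?_⟩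
  · -- the crude bound
    have c0 : 0 < ρ + M := by linarith
    have h1 : Ar u b ≤ Ar u (fun _ => ρ + M) := Ar_mono N fun i => (le_abs_self _).trans (habs i)
    have h2 : Ar u (fun _ => ρ + M) = qa β (fun _ => ρ + M) :=
      hzb n u β N _ fun i => (len_const_pos N c0 i).le
    have h3 : qa β (fun _ => ρ + M) ≤ (ρ + M) * ((ρ + M) * C) / 2 := by
      rw [alg2, ← Finset.sum_mul, alg3]
      have e : ∑ i : Fin n, (ρ + M) * (Real.tan (β (i - 1) / 2) + Real.tan (β i / 2))
          = (ρ + M) * ∑ i : Fin n, (Real.tan (β (i - 1) / 2) + Real.tan (β i / 2)) := by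
        rw [Finset.mul_sum]
      rw [e]
      have := mul_le_mul_of_nonneg_left hw c0.le
      nlinarith only [hρ, this, hM]
    have h4 : -qa β b ≤ (ρ + M) * (C * ρ + C * M) / 2 := by
      rw [alg2]
      have h5 : -(∑ i, len β b i * b i) ≤ (ρ + M) * (∑ i, len β (fun j => h (u j)) i
          + ∑ i, len β (fun j => k (u j)) i) := by
        rw [← Finset.sum_neg_distrib, ← Finset.sum_add_distrib, Finset.mul_sum]
        refine Finset.sum_le_sum fun i _ => ?_
        have h6 : |len β b i| ≤ len β (fun j => h (u j)) i + len β (fun j => k (u j)) i := by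
          rw [lb, abs_le]
          constructor <;> linarith only [lh i, lk i]
        calc -(len β b i * b i) ≤ |len β b i * b i| := neg_le_abs _
          _ = |b i| * |len β b i| := by rw [abs_mul, mul_comm]
          _ ≤ (ρ + M) * (len β (fun j => h (u j)) i + len β (fun j => k (u j)) i) :=
            mul_le_mul (habs i) h6 (abs_nonneg _) c0.le
      have h7 : (ρ + M) * (∑ i, len β (fun j => h (u j)) i + ∑ i, len β (fun j => k (u j)) i)
          ≤ (ρ + M) * (C * ρ + C * M) := mul_le_mul_of_nonneg_left (add_le_add sh sk) c0.le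
      linarith
    have h8 : (ρ + M) * ((ρ + M) * C) / 2 + (ρ + M) * (C * ρ + C * M) / 2 = C * (ρ + M) ^ 2 := by
      ring
    linarith
  · intro D hD hx
    have hne : ∃ x, ∀ i, ip (u i) x ≤ b i := by
      obtain ⟨x, hx1, -⟩ := hx 0
      exact ⟨x, fun i => by rw [hbd]; exact hx1 (u i)⟩
    obtain ⟨s, hs, hsb, hs'⟩ := exists_support N hne
    obtain ⟨b', hb'd⟩ : ∃ b' : Fin n → ℝ, b' = fun i => s (u i) := ⟨_, rfl⟩
    have lb' : ∀ i, 0 ≤ len β b' i := fun i => by rw [hb'd]; exact hlsub n u β N s hs i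
    have e1 : Ar u b = Ar u b' := by
      unfold Ar
      congr 2
      ext x
      constructor
      · intro h1 i
        rw [hb'd]
        exact hs' x h1 (u i)
      · intro h1 i
        have h2 := h1 i
        rw [hb'd] at h2
        exact h2.trans (hsb i)
    have e2 : Ar u b' = qa β b' := hzb n u β N b' lb'
    obtain ⟨d, hd⟩ : ∃ d : Fin n → ℝ, d = fun i => b i - b' i := ⟨_, rfl⟩
    have d0 : ∀ i, 0 ≤ d i := fun i => by
      rw [hd, hb'd]; simp only; linarith [hsb i]
    have dD : ∀ i, d i ≤ D := fun i => by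
      obtain ⟨x, hx1, hx2⟩ := hx i
      have h1 : ip (u i) x ≤ s (u i) := hs' x (fun j => by rw [hbd]; exact hx1 (u j)) (u i)
      rw [hd, hb'd, hbd]
      simp only
      linarith
    have A := alg1 b' d (-1)
    have E := alg1 b d 1
    have eA : (fun i => b' i - -1 * d i) = b := by funext i; rw [hd]; ring
    have eE : (fun i => b i - 1 * d i) = b' := by funext i; rw [hd]; ring
    rw [eA] at A
    rw [eE] at E
    have key : 2 * (qa β b' - qa β b) = -∑ i, (len β b' i + len β b i) * d i := by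
      have : ∑ i, (len β b' i + len β b i) * d i = ∑ i, len β b' i * d i + ∑ i, len β b i * d i := by
        rw [← Finset.sum_add_distrib]
        exact Finset.sum_congr rfl fun i _ => by ring
      rw [this]
      linarith
    have hle : -∑ i, (len β b' i + len β b i) * d i ≤ D * (C * M) := by
      have h1 : -∑ i, (len β b' i + len β b i) * d i ≤ ∑ i, D * len β (fun j => k (u j)) i := by
        rw [← Finset.sum_neg_distrib]
        refine Finset.sum_le_sum fun i _ => ?_
        rw [lb]
        have k1 := mul_nonneg (lb' i) (d0 i)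
        have k2 := mul_nonneg (lh i) (d0 i)
        have k3 := mul_le_mul_of_nonneg_right (dD i) (lk i)
        linarith only [k1, k2, k3]
      rw [← Finset.mul_sum] at h1
      exact h1.trans (mul_le_mul_of_nonneg_left sk hD)
    rw [e1, e2]
    have : 0 ≤ C * M * D := by positivity
    linarith only [key, hle, this]

end Pool.Agent.GB.H35
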